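import Pool.Agent.J4H96.TC.Stm

set_option autoImplicit false

/-!
# Project TC, piece FAM
-/

namespace Pool.Agent.J4H25.TC

open Pool.Agent.J4H63.GZ Pool.Agent.J4H96.TC

/-! ### The degree -/

theorem inc_two {T : ℕ → ℕ} (hT : ∀ x, T (T x) = x) {x d d' f : ℕ} (h1 : Inc T x f)
    (h2 : Inc T d f) (h3 : Inc T d' f) : x = d ∨ x = d' ∨ d = d' := by
  have key : ∀ y, y = min y (T y) ∨ y = T (min y (T y)) := by
    intro y
    rcases le_total y (T y) with h | h
    · exact Or.inl (min_eq_left h).symm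
    · rw [min_eq_right h, hT]
      exact Or.inr rfl
  unfold Inc at h1 h2 h3
  rcases h1 with h1 | ⟨-, h1⟩
  · rcases h2 with h2 | ⟨-, h2⟩
    · rcases h3 with h3 | ⟨-, h3⟩ <;> omega
    · omega
  · rcases h2 with h2 | ⟨-, h2⟩
    · omega
    · rcases h3 with h3 | ⟨-, h3⟩
      · omega
      · have e1 : min d (T d) = min x (T x) := by omega
        have e2 : min d' (T d') = min x (T x) := by omega
        have k1 := key x
        have k2 := key d
        have k3 := key d'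
        rw [e1] at k2
        rw [e2] at k3
        rcases k1 with k1 | k1 <;> rcases k2 with k2 | k2 <;> rcases k3 with k3 | k3 <;>
          first
          | exact Or.inl (k1.trans k2.symm)
          | exact Or.inr (Or.inl (k1.trans k3.symm))
          | exact Or.inr (Or.inr (k2.trans k3.symm))

/-- the neighbour of `3 x` which belongs to the edge `f` -/
def Ngb (T : ℕ → ℕ) (e x f b : ℕ) : Prop :=
  (f ≠ e ∧ b = f) ∨ (f = e ∧ ∃ d, x ≠ d ∧ Inc T d e ∧ b = 3 * d)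

theorem ngb_unique {T : ℕ → ℕ} (hT : ∀ x, T (T x) = x) {e x f b b' : ℕ} (h : Inc T x f)
    (hb : Ngb T e x f b) (hb' : Ngb T e x f b') : b = b' := by
  rcases hb with ⟨h1, h2⟩ | ⟨h1, d, h2, h3, h4⟩
  · rcases hb' with ⟨h5, h6⟩ | ⟨h5, -⟩
    · rw [h2, h6]
    · exact absurd h5 h1
  · rcases hb' with ⟨h5, -⟩ | ⟨-, d', h6, h7, h8⟩
    · exact absurd h1 h5
    · subst h1
      rcases inc_two hT h h3 h7 with h9 | h9 | h9
      · exact absurd h9 h2
      · exact absurd h9 h6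
      · rw [h4, h8, h9]

theorem adj_cases {T : ℕ → ℕ} {B e a b : ℕ} (h : Adj T B e a b) :
    (∃ x f, a = 3 * x ∧ Inc T x f ∧ Ngb T e x f b) ∨ (∃ x, Inc T x a ∧ b = 3 * x) := by
  rcases h with ⟨c, -, h1, h2, h3⟩ | ⟨c, -, h1, h2, h3⟩ | ⟨c, -, d, -, h1, h2, h3, h4, h5⟩
  · exact Or.inl ⟨c, b, h3, h1, Or.inl ⟨h2, rfl⟩⟩
  · exact Or.inr ⟨c, h1, h3⟩
  · exact Or.inl ⟨c, e, h4, h2, Or.inr ⟨rfl, d, h1, h3, h5⟩⟩

theorem inc_mod {T : ℕ → ℕ} {x f : ℕ} (h : Inc T x f) : f % 3 ≠ 0 := by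
  rcases h with h | ⟨-, h⟩ <;> omega

theorem adj_deg {T : ℕ → ℕ} (hT : ∀ x, T (T x) = x) {B e a b c d : ℕ} (hb : Adj T B e a b)
    (hc : Adj T B e a c) (hd : Adj T B e a d) : b = c ∨ b = d ∨ c = d := by
  rcases adj_cases hb with ⟨x, f, h1, h2, h3⟩ | ⟨x, h1, h2⟩
  · rcases adj_cases hc with ⟨x', f', h1', h2', h3'⟩ | ⟨x', h1', -⟩
    · rcases adj_cases hd with ⟨x'', f'', h1'', h2'', h3''⟩ | ⟨x'', h1'', -⟩
      · have e1 : x' = x := by omega
        have e2 : x'' = x := by omega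
        subst e1
        subst e2
        have key : f = f' ∨ f = f'' ∨ f' = f'' := by
          unfold Inc at h2 h2' h2''
          omega
        rcases key with h | h | h
        · subst h
          exact Or.inl (ngb_unique hT h2 h3 h3')
        · subst h
          exact Or.inr (Or.inl (ngb_unique hT h2 h3 h3''))
        · subst h
          exact Or.inr (Or.inr (ngb_unique hT h2' h3' h3''))
      · exact absurd (by omega) (inc_mod h1'')
    · exact absurd (by omega) (inc_mod h1')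
  · rcases adj_cases hc with ⟨x', f', h1', h2', h3'⟩ | ⟨x', h1', h2'⟩
    · exact absurd (by omega) (inc_mod h1)
    · rcases adj_cases hd with ⟨x'', f'', h1'', h2'', h3''⟩ | ⟨x'', h1'', h2''⟩
      · exact absurd (by omega) (inc_mod h1)
      · rcases inc_two hT h1 h1' h1'' with h | h | h
        · exact Or.inl (by rw [h2, h2', h])
        · exact Or.inr (Or.inl (by rw [h2, h2'', h]))
        · exact Or.inr (Or.inr (by rw [h2', h2'', h]))

theorem adj_symm {T : ℕ → ℕ} {B e a b : ℕ} (h : Adj T B e a b) : Adj T B e b a := by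
  rcases h with h | h | ⟨c, hc, d, hd, h1, h2, h3, h4, h5⟩
  · exact Or.inr (Or.inl h)
  · exact Or.inl h
  · exact Or.inr (Or.inr ⟨d, hd, c, hc, h1.symm, h3, h2, h5, h4⟩)

theorem adj_ne {T : ℕ → ℕ} {B e a b : ℕ} (h : Adj T B e a b) : a ≠ b := by
  rcases h with ⟨c, -, h1, h2, h3⟩ | ⟨c, -, h1, h2, h3⟩ | ⟨c, -, d, -, h1, h2, h3, h4, h5⟩
  · have := inc_mod h1
    omega
  · have := inc_mod h1
    omega
  · omega

theorem adj_lt {T : ℕ → ℕ} {m e a b : ℕ} (h : Adj T (2 * m) e a b) : a < 6 * m := by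
  rcases h with ⟨c, hc, h1, h2, h3⟩ | ⟨c, hc, h1, h2, h3⟩ | ⟨c, hc, d, -, h1, h2, h3, h4, h5⟩
  · omega
  · rcases h1 with h1 | ⟨-, h1⟩
    · omega
    · have := min_le_left c (T c)
      omega
  · omega

/-! ### Bounded formulas -/

section

variable {K : ℕ} {τ : (Fin (K + 1) → ℕ) → ℕ → ℕ} (hτ : InvFamily K τ)

theorem pf_up {ι : Type} {f : (ι → ℕ) → ℕ} (hf : PF f) :
    PF (fun w : Option ι → ℕ => f (fun i => w (some i))) :=
  hf.comp fun i => PF.proj (some i)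

include hτ

theorem bd_graph {ι : Type} {p : Fin (K + 1) → (ι → ℕ) → ℕ} (hp : ∀ i, PF (p i))
    {c t : (ι → ℕ) → ℕ} (hc : PF c) (ht : PF t) :
    Bd (fun v => τ (fun i => p i v) (c v) = t v) := by
  refine ((Bd.of_delta0 hτ.graph).subst (f := fun i v => Matrix.vecCons (c v)
    (Matrix.vecCons (t v) (fun j => p j v)) i) ?_).congr fun v => Iff.rfl
  intro i
  refine Fin.cases ?_ (fun j => ?_) i
  · exact hc
  · refine Fin.cases ?_ (fun k => ?_) j
    · exact ht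
    · exact hp k

theorem tau_le (p : Fin (K + 1) → ℕ) (c : ℕ) : τ p c ≤ c + p 0 := by
  by_cases h : p 0 ≤ τ p c
  · have h1 := hτ.fix p _ h
    rw [hτ.inv] at h1
    omega
  · omega

theorem inc_iff (p : Fin (K + 1) → ℕ) (c f : ℕ) : Inc (τ p) c f ↔
    (∃ h ≤ c, (c = 2 * h ∨ c = 2 * h + 1) ∧ f = 6 * h + 1) ∨
    ∃ t ≤ c + p 0, τ p c = t ∧ ¬ t = c ∧ ((c ≤ t ∧ f = 3 * c + 2) ∨ (t ≤ c ∧ f = 3 * t + 2)) := by
  unfold Inc
  refine or_congr ?_ ?_
  · constructor
    · intro h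
      exact ⟨c / 2, by omega, by omega, by omega⟩
    · rintro ⟨h, -, h1, h2⟩
      omega
  · constructor
    · rintro ⟨h1, h2⟩
      refine ⟨τ p c, tau_le hτ p c, rfl, h1, ?_⟩
      rcases le_total c (τ p c) with h | h
      · rw [min_eq_left h] at h2
        exact Or.inl ⟨h, h2⟩
      · rw [min_eq_right h] at h2
        exact Or.inr ⟨h, h2⟩
    · rintro ⟨t, -, rfl, h1, h2⟩
      refine ⟨h1, ?_⟩
      rcases h2 with ⟨h2, h3⟩ | ⟨h2, h3⟩
      · rw [min_eq_left h2]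
        exact h3
      · rw [min_eq_right h2]
        exact h3

theorem bd_inc {ι : Type} {p : Fin (K + 1) → (ι → ℕ) → ℕ} (hp : ∀ i, PF (p i))
    {c f : (ι → ℕ) → ℕ} (hc : PF c) (hf : PF f) :
    Bd (fun v => Inc (τ (fun i => p i v)) (c v) (f v)) := by
  refine (Bd.or
    (Bd.ex_le (P := fun v h => (c v = 2 * h ∨ c v = 2 * h + 1) ∧ f v = 6 * h + 1) hc ?_)
    (Bd.ex_le (P := fun v t => τ (fun i => p i v) (c v) = t ∧ ¬ t = c v ∧
      ((c v ≤ t ∧ f v = 3 * c v + 2) ∨ (t ≤ c v ∧ f v = 3 * t + 2))) (hc.add (hp 0)) ?_)).congr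
    fun v => inc_iff hτ _ _ _
  · have h0 : PF (fun w : Option ι → ℕ => w none) := PF.proj none
    have h2 : PF (fun w : Option ι → ℕ => 2 * w none) := (PF.const 2).mul h0
    exact Bd.and (Bd.or (Bd.eqf (pf_up hc) h2) (Bd.eqf (pf_up hc) (h2.add (PF.const 1))))
      (Bd.eqf (pf_up hf) (((PF.const 6).mul h0).add (PF.const 1)))
  · have h0 : PF (fun w : Option ι → ℕ => w none) := PF.proj none
    refine Bd.and (bd_graph hτ (p := fun i w => p i (fun j => w (some j)))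
      (fun i => pf_up (hp i)) (pf_up hc) h0) (Bd.and (Bd.not (Bd.eqf h0 (pf_up hc)))
      (Bd.or (Bd.and (Bd.lef (pf_up hc) h0) (Bd.eqf (pf_up hf)
        (((PF.const 3).mul (pf_up hc)).add (PF.const 2)))) (Bd.and (Bd.lef h0 (pf_up hc))
        (Bd.eqf (pf_up hf) (((PF.const 3).mul h0).add (PF.const 2))))))

theorem bd_adj {ι : Type} {p : Fin (K + 1) → (ι → ℕ) → ℕ} (hp : ∀ i, PF (p i))
    {B e a b : (ι → ℕ) → ℕ} (hB : PF B) (he : PF e) (ha : PF a) (hb : PF b) :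
    Bd (fun v => Adj (τ (fun i => p i v)) (B v) (e v) (a v) (b v)) := by
  have h0 : PF (fun w : Option ι → ℕ => w none) := PF.proj none
  have h3 : PF (fun w : Option ι → ℕ => 3 * w none) := (PF.const 3).mul h0
  have g0 : PF (fun w : Option (Option ι) → ℕ => w none) := PF.proj none
  have g1 : PF (fun w : Option (Option ι) → ℕ => w (some none)) := PF.proj (some none)
  refine Bd.or (Bd.ex_lt (P := fun v c => Inc (τ (fun i => p i v)) c (b v) ∧ b v ≠ e v ∧
      a v = 3 * c) hB ?_) (Bd.or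
    (Bd.ex_lt (P := fun v c => Inc (τ (fun i => p i v)) c (a v) ∧ a v ≠ e v ∧
      b v = 3 * c) hB ?_)
    (Bd.ex_lt (P := fun v c => ∃ d < B v, c ≠ d ∧ Inc (τ (fun i => p i v)) c (e v) ∧
      Inc (τ (fun i => p i v)) d (e v) ∧ a v = 3 * c ∧ b v = 3 * d) hB ?_))
  · exact Bd.and (bd_inc hτ (p := fun i w => p i (fun j => w (some j)))
      (fun i => pf_up (hp i)) h0 (pf_up hb)) (Bd.and (Bd.not (Bd.eqf (pf_up hb) (pf_up he)))
      (Bd.eqf (pf_up ha) h3))
  · exact Bd.and (bd_inc hτ (p := fun i w => p i (fun j => w (some j)))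
      (fun i => pf_up (hp i)) h0 (pf_up ha)) (Bd.and (Bd.not (Bd.eqf (pf_up ha) (pf_up he)))
      (Bd.eqf (pf_up hb) h3))
  · refine Bd.ex_lt (ι := Option ι) (P := fun w d => w none ≠ d ∧
      Inc (τ (fun i => p i (fun j => w (some j)))) (w none) (e (fun j => w (some j))) ∧
      Inc (τ (fun i => p i (fun j => w (some j)))) d (e (fun j => w (some j))) ∧
      a (fun j => w (some j)) = 3 * w none ∧ b (fun j => w (some j)) = 3 * d) (pf_up hB) ?_
    exact Bd.and (Bd.not (Bd.eqf g1 g0)) (Bd.and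
      (bd_inc hτ (p := fun i w => p i (fun j => w (some (some j))))
        (fun i => pf_up (pf_up (hp i))) g1 (pf_up (pf_up he))) (Bd.and
      (bd_inc hτ (p := fun i w => p i (fun j => w (some (some j))))
        (fun i => pf_up (pf_up (hp i))) g0 (pf_up (pf_up he))) (Bd.and
      (Bd.eqf (pf_up (pf_up ha)) ((PF.const 3).mul g1))
      (Bd.eqf (pf_up (pf_up hb)) ((PF.const 3).mul g0)))))

end

/-- PIECE FAM. -/
theorem t_FAM : S_FAM := by
  intro K τ hτ
  refine ⟨?_, ?_, ?_, ?_, ?_⟩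
  · rintro q a b ⟨h1, h2, h3⟩
    exact ⟨h1, h2, adj_symm h3⟩
  · rintro q a b ⟨-, -, h3⟩
    exact adj_ne h3
  · rintro q a b ⟨-, h2, h3⟩
    exact (adj_lt h3).trans_le h2
  · rintro q a b c d ⟨-, -, h3⟩ ⟨-, -, h4⟩ ⟨-, -, h5⟩
    exact adj_deg (hτ.inv _) h3 h4 h5
  · refine Bd.delta0_iff.2 ?_
    have hv : ∀ i : Fin (K + 3 + 3), PF (fun v : Fin (K + 3 + 3) → ℕ => v i) := PF.proj
    refine Bd.and ?_ (Bd.and ?_ ?_)
    · exact Bd.lef (hv _) ((PF.const 2).mul (hv _))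
    · exact Bd.lef ((PF.const 6).mul (hv _)) (hv _)
    · exact bd_adj hτ (p := fun i v => v i.succ.succ.succ.succ.succ) (fun i => hv _)
        ((PF.const 2).mul (hv _)) (hv _) (hv _) (hv _)

end Pool.Agent.J4H25.TC
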