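import Pool.Agent.J4H96.TC.Stm

set_option autoImplicit false

/-!
# Project TC, piece PTH
-/

namespace Pool.Agent.J4H25.TC

open Pool.Agent.J4H63.GZ Pool.Agent.J4H96.TC Relation

theorem walk_edge {T : ℕ → ℕ} {B e c d f : ℕ} (hc : c < B) (hd : d < B) (hcd : c ≠ d)
    (h1 : Inc T c f) (h2 : Inc T d f) : ReflTransGen (Adj T B e) (3 * c) (3 * d) := by
  by_cases hf : f = e
  · subst hf
    exact ReflTransGen.single (Or.inr (Or.inr ⟨c, hc, d, hd, hcd, h1, h2, rfl, rfl⟩))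
  · have a1 : Adj T B e (3 * c) f := Or.inl ⟨c, hc, h1, hf, rfl⟩
    have a2 : Adj T B e f (3 * d) := Or.inr (Or.inl ⟨d, hd, h2, hf, rfl⟩)
    exact (ReflTransGen.single a1).tail a2

theorem walk_step {T : ℕ → ℕ} {B : ℕ} (e : ℕ) (hT : ∀ x, T (T x) = x) (hB : ∀ x < B, T x < B)
    (h2 : 2 ∣ B) {c d : ℕ} (hc : c < B) (h : d = T c ∨ d / 2 = c / 2) :
    d < B ∧ ReflTransGen (Adj T B e) (3 * c) (3 * d) := by
  obtain ⟨k, rfl⟩ := h2
  by_cases hcd : c = d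
  · subst hcd
    exact ⟨hc, ReflTransGen.refl⟩
  · rcases h with rfl | h
    · refine ⟨hB c hc, walk_edge hc (hB c hc) hcd (f := 3 * min c (T c) + 2)
        (Or.inr ⟨fun h => hcd h.symm, rfl⟩) (Or.inr ⟨?_, ?_⟩)⟩
      · rw [hT]
        exact hcd
      · rw [hT, min_comm]
    · have hd : d < 2 * k := by omega
      exact ⟨hd, walk_edge hc hd hcd (f := 3 * (2 * (c / 2)) + 1) (Or.inl rfl)
        (Or.inl (by rw [h]))⟩

theorem walk_linked {T : ℕ → ℕ} {B : ℕ} (e : ℕ) (hT : ∀ x, T (T x) = x) (hB : ∀ x < B, T x < B)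
    (h2 : 2 ∣ B) {c y : ℕ} (hc : c < B) (h : Linked T c y) :
    y < B ∧ ReflTransGen (Adj T B e) (3 * c) (3 * y) := by
  induction h with
  | refl => exact ⟨hc, ReflTransGen.refl⟩
  | tail _ hbc ih =>
    obtain ⟨h3, h4⟩ := walk_step e hT hB h2 ih.1 hbc
    exact ⟨h3, ih.2.trans h4⟩

/-- PIECE PTH. -/
theorem t_PTH : S_PTH := by
  intro T B e hT hB h2 hE
  have key : ∀ a c : ℕ, c < B → ReflTransGen (Adj T B e) a (3 * c) →
      ∃ b, ReflTransGen (Adj T B e) a b ∧ ∀ c d, Adj T B e b c → Adj T B e b d → c = d := by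
    intro a c hc hac
    obtain ⟨y, hy, hTy⟩ := hE c
    obtain ⟨hyB, hw⟩ := walk_linked e hT hB h2 hc hy
    have inc : ∀ f, Inc T y f → f = 3 * (2 * (y / 2)) + 1 := by
      rintro f (h | ⟨h, -⟩)
      · exact h
      · exact absurd hTy h
    have adj : ∀ b, Adj T B e (3 * y) b → (b = 3 * (2 * (y / 2)) + 1 ∧
        e ≠ 3 * (2 * (y / 2)) + 1) ∨ (e = 3 * (2 * (y / 2)) + 1 ∧ ∃ d, d ≠ y ∧ d / 2 = y / 2 ∧
        b = 3 * d) := by
      rintro b (⟨x, -, h3, h4, h5⟩ | ⟨x, -, h3, -, -⟩ | ⟨x, -, d, -, h3, h4, h5, h6, rfl⟩)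
      · have hx : x = y := by omega
        subst hx
        have h6 := inc b h3
        exact Or.inl ⟨h6, fun h => h4 (by rw [h6, h])⟩
      · exfalso
        rcases h3 with h3 | ⟨-, h3⟩ <;> omega
      · have hx : x = y := by omega
        subst hx
        have h7 := inc e h4
        refine Or.inr ⟨h7, d, fun h => h3 h.symm, ?_, rfl⟩
        rcases h5 with h5 | ⟨-, h5⟩ <;> omega
    refine ⟨3 * y, hac.trans hw, fun b b' hb hb' => ?_⟩
    rcases adj b hb with ⟨h3, h4⟩ | ⟨h3, d, h4, h5, h6⟩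
    · rcases adj b' hb' with ⟨h7, -⟩ | ⟨h7, -⟩
      · rw [h3, h7]
      · exact absurd h7 h4
    · rcases adj b' hb' with ⟨-, h8⟩ | ⟨-, d', h8, h9, h10⟩
      · exact absurd h3 h8
      · have : d = d' := by omega
        rw [h6, h10, this]
  intro a
  by_cases ha : ∃ x, Adj T B e a x
  · obtain ⟨x, hx⟩ := ha
    rcases hx with ⟨c, hc, -, -, rfl⟩ | ⟨c, hc, h3, h4, h5⟩ | ⟨c, hc, d, -, -, -, -, rfl, -⟩
    · exact key _ c hc ReflTransGen.refl
    · refine key a c hc (ReflTransGen.single ?_)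
      exact Or.inr (Or.inl ⟨c, hc, h3, h4, rfl⟩)
    · exact key _ c hc ReflTransGen.refl
  · exact ⟨a, ReflTransGen.refl, fun c d hc => absurd ⟨c, hc⟩ ha⟩

end Pool.Agent.J4H25.TC
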